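import Pool.Agent.Lib.MP_021685_agX.XR
import Pool.Agent.Lib.MP_021685_agX.XM

/-!
# Galois data and the Mumford-Tate Lie algebra, in coordinates
-/

set_option autoImplicit false
set_option linter.unusedSectionVars false

noncomputable section

open Matrix Function Module MP_802513_agSD
open Pool.Agent.Lib.MP_802513_ag Pool.Agent.Lib.MP_802513_agH Pool.Agent.Lib.MP_802513_agS
  Pool.Agent.Lib.MP_802513_agU Pool.Agent.Lib.MP_021685_agV
open scoped TensorProduct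

namespace MP_021685_agX

/-- A matrix which commutes with the conjugates of the complex structure is a combination of rational
ones. -/
theorem comm_span {k : ℕ} {D : PData (Fin k)} {Y : Mt k}
    (hY : ∀ σ : Gal, Y * D.J.map σ = D.J.map σ * Y) :
    Y ∈ Submodule.span ℂ {Z : Mt k | ∃ N ∈ RQ D, Z = cq N} := by
  let f : (Fin k × Fin k → ℂ) →ₗ[ℂ] Mt k :=
    { toFun := fun w => Matrix.of fun i j => w (i, j)
      map_add' := fun _ _ => rfl
      map_smul' := fun _ _ => rfl }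
  let W : Submodule ℂ (Fin k × Fin k → ℂ) :=
    { carrier := {w | ∀ σ : Gal, f w * D.J.map σ = D.J.map σ * f w}
      add_mem' := fun {x y} hx hy σ => by
        rw [map_add, add_mul, mul_add, hx σ, hy σ]
      zero_mem' := fun σ => by rw [map_zero, zero_mul, mul_zero]
      smul_mem' := fun c x hx σ => by rw [map_smul, smul_mul_assoc, mul_smul_comm, hx σ] }
  have hW : ∀ σ : ℂ ≃+* ℂ, ∀ w ∈ W, (fun i => σ (w i)) ∈ W := by
    intro σ w hw τ
    have h1 : f (fun i => σ (w i)) = (f w).map σ := rfl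
    have h2 : D.J.map τ = (D.J.map (σ⁻¹ * τ : Gal)).map σ := by
      ext a c
      show τ (D.J a c) = σ (σ⁻¹ (τ (D.J a c)))
      exact (σ.apply_symm_apply _).symm
    have h3 := congrArg (fun M : Mt k => M.map σ) (hw (σ⁻¹ * τ : Gal))
    simp only [Matrix.map_mul] at h3
    rw [h1, h2]
    exact h3
  have h1 : (fun p : Fin k × Fin k => Y p.1 p.2) ∈ W := fun σ => hY σ
  have h2 := le_span_rational W hW h1
  have h3 : (Submodule.span ℂ {w : Fin k × Fin k → ℂ | w ∈ W ∧ ∃ q : Fin k × Fin k → ℚ, ∀ i, w i = (q i : ℂ)}) ≤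
      (Submodule.span ℂ {Z : Mt k | ∃ N ∈ RQ D, Z = cq N}).comap f := by
    refine Submodule.span_le.2 ?_
    rintro w ⟨hw, q, hq⟩
    refine Submodule.subset_span ⟨Matrix.of fun i j => q (i, j), ?_, ?_⟩
    · rw [mem_RQ]
      have h4 : cq (Matrix.of fun i j => q (i, j)) = f w := by
        ext i j
        rw [cq_apply]
        exact (hq (i, j)).symm
      have h5 := hw 1
      have h6 : D.J.map (1 : Gal) = D.J := by
        ext
        rfl
      rw [h6] at h5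
      rw [h4]
      exact h5.symm
    · ext i j
      rw [cq_apply]
      exact hq (i, j)
  exact h3 h2

section

variable {W : Type*} [AddCommGroup W] [Module ℂ W] {M : AddSubgroup W} {g : ℕ}
  {b : Basis (Fin (2 * g)) ℝ W} {e : Basis (Fin (2 * g)) ℂ (ℂ ⊗[ℤ] M)} {D : PData (Fin (2 * g))}
  {γ : HSpace M} {c : HEnd M → ℂ}

/-- The matrices of the elements of the Lie algebra. -/
def GM (e : Basis (Fin (2 * g)) ℂ (ℂ ⊗[ℤ] M)) (γ : HSpace M) : Submodule ℂ (Mt (2 * g)) :=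
  γ.map (LinearMap.toMatrix e e : HEnd M ≃ₗ[ℂ] Mt (2 * g)).toLinearMap

theorem mem_GM {x : Mt (2 * g)} : x ∈ GM e γ ↔ ∃ y ∈ γ, LinearMap.toMatrix e e y = x := Iff.rfl

theorem GM_lie (hγ : IsGaloisLie M γ c) : IsLie (GM e γ) := by
  rintro _ ⟨x, hx, rfl⟩ _ ⟨y, hy, rfl⟩
  exact ⟨_, hγ.lie x hx y hy, toMatrix_br x y⟩

theorem GM_comm (hb : ∀ w, w ∈ M ↔ ∀ l, ∃ n : ℤ, b.repr w l = n)
    (he : ∀ (l : Fin (2 * g)) (h : b l ∈ M), e l = 1 ⊗ₜ[ℤ] (⟨b l, h⟩ : M))
    (hJ : D.J = rc (Pool.Agent.Lib.MP_802513_agH.Jr b)) (hγ : IsGaloisLie M γ c) :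
    ∀ x ∈ GM e γ, ∀ Y : Mt (2 * g), (∀ σ : Gal, Y * D.J.map σ = D.J.map σ * Y) → x * Y = Y * x := by
  rintro _ ⟨x, hx, rfl⟩ Y hY
  show LinearMap.toMatrix e e x * Y = Y * LinearMap.toMatrix e e x
  refine Submodule.span_induction (p := fun Y _ => LinearMap.toMatrix e e x * Y =
    Y * LinearMap.toMatrix e e x) ?_ ?_ ?_ ?_ (comm_span hY)
  · rintro _ ⟨N, hN, rfl⟩
    have h1 := Pool.Agent.Lib.MP_021685_agQ.comm_of_at (D := D) hb he hJ
      (fun θ hθ v => hγ.hodge 2 1 θ hθ x hx v) hN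
    have h2 := congrArg (LinearMap.toMatrix e e) h1
    rw [LinearMap.toMatrix_mul, LinearMap.toMatrix_mul, LinearMap.toMatrix_toLin] at h2
    exact h2
  · rw [mul_zero, zero_mul]
  · intro A B _ _ hA hB
    rw [mul_add, add_mul, hA, hB]
  · intro z A _ hA
    rw [mul_smul_comm, smul_mul_assoc, hA]

/-- The Mumford-Tate data. -/
theorem mt_data (hb : ∀ w, w ∈ M ↔ ∀ l, ∃ n : ℤ, b.repr w l = n)
    (he : ∀ (l : Fin (2 * g)) (h : b l ∈ M), e l = 1 ⊗ₜ[ℤ] (⟨b l, h⟩ : M))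
    (hJ : D.J = rc (Pool.Agent.Lib.MP_802513_agH.Jr b)) : IsGaloisLie M (mtLie e D) (mtChar e) :=
  ⟨mt_lie, fun n i θ hθ => mt_hodge hb he hJ hθ, fun θ hθ => mt_tate hb he hJ hθ, mt_semisimple,
    mt_sen hb he hJ⟩

/-- The Galois Lie algebra commutes with the projection to the Mumford-Tate Lie algebra. -/
theorem proj_comm (hX : IsAbelianVariety M) (hb : ∀ w, w ∈ M ↔ ∀ l, ∃ n : ℤ, b.repr w l = n)
    (he : ∀ (l : Fin (2 * g)) (h : b l ∈ M), e l = 1 ⊗ₜ[ℤ] (⟨b l, h⟩ : M))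
    (hJ : D.J = rc (Pool.Agent.Lib.MP_802513_agH.Jr b)) {B : W →ₗ[ℝ] W →ₗ[ℝ] ℝ}
    (hB : IsRiemannForm M B) (hG : D.Gc = rc (gram b B)) (hγ : IsGaloisLie M γ c)
    {P : HEnd M →ₗ[ℂ] HEnd M} (hP : Pool.Agent.Lib.MP_021685_agQ.IsProjTo (mtLie e D) P)
    {x : HEnd M} (hx : x ∈ γ) (E : HEnd M) : P (x * E - E * x) = x * P E - P E * x := by
  have hfin : Module.Finite ℂ (ℂ ⊗[ℤ] M) := Module.Finite.of_basis e
  obtain ⟨ψ, hψ⟩ := exists_extForm (L := M) B
  obtain ⟨θ, h1, h2⟩ := Pool.Agent.Lib.MP_021685_agQ.exists_class hX hB hψ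
    (mt_data hb he hJ).toQ hP
  have h3 : θ ∈ Pool.Agent.Lib.MP_021685_agS.extF ℂ (Pool.Agent.Lib.MP_021685_agQ.hodgeC M) 4 2 :=
    isHodgeComb_iff.1 (mt_tate hb he hJ (isTate_iff.2 h2))
  rw [← Pool.Agent.Lib.MP_021685_agQ.bil_eq hb he hG hψ] at h1
  have h4 : Pool.Agent.Lib.MP_021685_agQ.ActsAt (Pool.Agent.Lib.MP_021685_agQ.hodgeC M) x (c x) 4 2 :=
    fun θ hθ v => hγ.hodge 4 2 θ (isHodgeComb_iff.2 hθ) x hx v
  have h5 : Pool.Agent.Lib.MP_021685_agQ.ActsAt (Pool.Agent.Lib.MP_021685_agQ.hodgeC M) x (c x) 2 1 :=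
    fun θ hθ v => hγ.hodge 2 1 θ (isHodgeComb_iff.2 hθ) x hx v
  exact Pool.Agent.Lib.MP_021685_agQ.comm_of_acts4
    (Pool.Agent.Lib.MP_021685_agQ.bil_nd (e := e) (D := D))
    (Pool.Agent.Lib.MP_021685_agQ.mult_of_at (D := D) hb he hJ h5)
    (Pool.Agent.Lib.MP_021685_agQ.actsOn_of_class h3 h1 h4) E

/-- The elements of the Galois Lie algebra normalize the Mumford-Tate Lie algebra. -/
theorem GM_norm (hX : IsAbelianVariety M) (hb : ∀ w, w ∈ M ↔ ∀ l, ∃ n : ℤ, b.repr w l = n)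
    (he : ∀ (l : Fin (2 * g)) (h : b l ∈ M), e l = 1 ⊗ₜ[ℤ] (⟨b l, h⟩ : M))
    (hJ : D.J = rc (Pool.Agent.Lib.MP_802513_agH.Jr b)) {B : W →ₗ[ℝ] W →ₗ[ℝ] ℝ}
    (hB : IsRiemannForm M B) (hG : D.Gc = rc (gram b B)) (hγ : IsGaloisLie M γ c) :
    ∀ x ∈ GM e γ, ∀ y ∈ kk D.J, x * y - y * x ∈ kk D.J := by
  rintro _ ⟨x, hx, rfl⟩ y hy
  show LinearMap.toMatrix e e x * y - y * LinearMap.toMatrix e e x ∈ kk D.J
  obtain ⟨P, hP⟩ := (mt_data hb he hJ).toQ.exists_proj
  have h6 := proj_comm hX hb he hJ hB hG hγ hP hx (Matrix.toLin e e y)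
  have hy' : Matrix.toLin e e y ∈ mtLie e D :=
    mem_mtLie.2 ⟨y, hy, 0, by rw [LinearMap.toMatrix_toLin, zero_smul, add_zero]⟩
  rw [hP.id _ hy'] at h6
  obtain ⟨a, ha⟩ := hP.mem (x * Matrix.toLin e e y - Matrix.toLin e e y * x)
  rw [h6] at ha
  obtain ⟨y', hy2, z, hz⟩ := mem_mtLie.1 ha
  have h7 : LinearMap.toMatrix e e x * y - y * LinearMap.toMatrix e e x =
      y' + (z - a) • (1 : Mt (2 * g)) := by
    have h8 : LinearMap.toMatrix e e (x * Matrix.toLin e e y - Matrix.toLin e e y * x + a • 1) =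
        (LinearMap.toMatrix e e x * y - y * LinearMap.toMatrix e e x) + a • (1 : Mt (2 * g)) := by
      rw [map_add, toMatrix_br, LinearMap.toMatrix_toLin, map_smul, LinearMap.toMatrix_one]
    rw [h8] at hz
    rw [sub_smul, ← add_sub_assoc, ← hz, add_sub_cancel_right]
  by_cases hg : g = 0
  · subst hg
    have : IsEmpty (Fin (2 * 0)) := ⟨fun x => absurd x.2 (by omega)⟩
    have h8 : LinearMap.toMatrix e e x * y - y * LinearMap.toMatrix e e x = 0 := by
      ext i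
      exact isEmptyElim i
    rw [h8]
    exact (kk D.J).zero_mem
  · have h8 := congrArg Matrix.trace h7
    rw [Matrix.trace_sub, Matrix.trace_mul_comm, sub_self, Matrix.trace_add, kk_trace hy2, zero_add,
      Matrix.trace_smul, Matrix.trace_one, Fintype.card_fin, smul_eq_mul] at h8
    have h9 : ((2 * g : ℕ) : ℂ) ≠ 0 := Nat.cast_ne_zero.2 (by omega)
    have h10 : z - a = 0 := (mul_eq_zero.1 h8.symm).resolve_right h9
    rw [h7, h10, zero_smul, add_zero]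
    exact hy2

/-- The idempotent. -/
def h0 {k : ℕ} (D : PData (Fin k)) (τ : Gal) : Mt k :=
  (-(τ Complex.I / 2)) • D.J.map τ + (1 / 2 : ℂ) • (1 : Mt k)

theorem h0_mem {k : ℕ} (D : PData (Fin k)) (τ : Gal) :
    ∃ y ∈ kk D.J, ∃ s : ℂ, h0 D τ = y + s • (1 : Mt k) :=
  ⟨_, (kk D.J).smul_mem _ (kk_mem D.J τ), 1 / 2, rfl⟩

/-- The traces of the idempotent. -/
theorem h0_trace (hJ : D.J = rc (Pool.Agent.Lib.MP_802513_agH.Jr b))
    {N : Matrix (Fin (2 * g)) (Fin (2 * g)) ℚ} {S : Module.End ℂ W}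
    (hSm : LinearMap.toMatrix b b (S.restrictScalars ℝ) = qr N) (τ : Gal) :
    (h0 D τ * cq N).trace = τ (LinearMap.trace ℂ W S) := by
  have hJt : D.J.map τ = D.J.map (τ : Gal) := rfl
  unfold h0
  rw [trace_tangent' hJ hSm, add_mul, smul_mul_assoc,
    smul_mul_assoc, one_mul, Matrix.trace_add, Matrix.trace_smul, Matrix.trace_smul, map_mul,
    map_sub, map_mul]
  have h3 : τ (D.J * cq N).trace = (D.J.map τ * cq N).trace := by
    have h4 : (cq N).map (τ : Gal) = cq N := by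
      ext i j
      rw [Matrix.map_apply, cq_apply]
      exact map_ratCast τ (N i j)
    nth_rewrite 2 [← h4]
    rw [← Matrix.map_mul, Matrix.trace, Matrix.trace, map_sum]
    rfl
  have h5 : τ (cq N).trace = (cq N).trace := by
    rw [Matrix.trace, map_sum]
    refine Finset.sum_congr rfl fun i _ => ?_
    rw [Matrix.diag_apply, cq_apply]
    exact map_ratCast τ (N i i)
  have h6 : τ (1 / 2 : ℂ) = 1 / 2 := by
    rw [map_div₀, map_one, map_ofNat]
  rw [h3, h5, h6, smul_eq_mul, smul_eq_mul]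
  ring

theorem GM_sen (hb : ∀ w, w ∈ M ↔ ∀ l, ∃ n : ℤ, b.repr w l = n)
    (he : ∀ (l : Fin (2 * g)) (h : b l ∈ M), e l = 1 ⊗ₜ[ℤ] (⟨b l, h⟩ : M))
    (hJ : D.J = rc (Pool.Agent.Lib.MP_802513_agH.Jr b)) (hγ : IsGaloisLie M γ c) (τ : Gal) :
    ∃ h ∈ GM e γ, ∀ Y : Mt (2 * g), (∀ σ : Gal, Y * D.J.map σ = D.J.map σ * Y) →
      (h * Y).trace = (h0 D τ * Y).trace := by
  obtain ⟨h, ⟨h1, -, -⟩, h4⟩ := hγ.sen τ
  refine ⟨_, ⟨h, h1, rfl⟩, fun Y hY => ?_⟩
  show (LinearMap.toMatrix e e h * Y).trace = _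
  refine Submodule.span_induction (p := fun Y _ => (LinearMap.toMatrix e e h * Y).trace =
    (h0 D τ * Y).trace) ?_ ?_ ?_ ?_ (comm_span hY)
  · rintro _ ⟨N, hN, rfl⟩
    obtain ⟨S, hS, hSm⟩ := Pool.Agent.Lib.MP_802513_agH.exists_endo (b := b) hb hJ N (mem_RQ.1 hN)
    have h9 := h4 S hS _ (Pool.Agent.Lib.MP_021685_agP.endExt_toLin hb he hSm)
    unfold trMul at h9
    rw [LinearMap.trace_eq_matrix_trace ℂ e, LinearMap.toMatrix_mul, LinearMap.toMatrix_toLin] at h9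
    rw [h9, h0_trace hJ hSm]
  · rw [mul_zero, mul_zero]
  · intro A B _ _ hA hB
    rw [mul_add, mul_add, Matrix.trace_add, Matrix.trace_add, hA, hB]
  · intro z A _ hA
    rw [mul_smul_comm, mul_smul_comm, Matrix.trace_smul, Matrix.trace_smul, hA]

/-- If the Lie algebra contains the idempotents, the Tate classes are combinations of Hodge classes. -/
theorem tate_of_h0 (hb : ∀ w, w ∈ M ↔ ∀ l, ∃ n : ℤ, b.repr w l = n)
    (he : ∀ (l : Fin (2 * g)) (h : b l ∈ M), e l = 1 ⊗ₜ[ℤ] (⟨b l, h⟩ : M))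
    (hJ : D.J = rc (Pool.Agent.Lib.MP_802513_agH.Jr b)) (hγ : IsGaloisLie M γ c)
    (h : ∀ τ : Gal, h0 D τ ∈ GM e γ) : TateAreHodge γ c := by
  intro n i θ hθ
  refine comb_of_killed hb he hJ fun σ j => ?_
  by_cases hg : g = 0
  · subst hg
    have : IsEmpty (Fin (2 * 0)) := ⟨fun x => absurd x.2 (by omega)⟩
    unfold DX
    refine Finset.sum_eq_zero fun s _ => ?_
    exact Fintype.sum_empty _
  · obtain ⟨x, hx, hx'⟩ := mem_GM.1 (h σ)
    have hmat : LinearMap.toMatrix e e x = (-(σ Complex.I / 2)) • D.J.map σ +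
      (1 / 2 : ℂ) • (1 : Mt (2 * g)) := hx'
    -- the character is one
    have hc : c x = 1 := by
      have h1 := fun u v => Pool.Agent.Lib.MP_021685_agQ.mult_of_at (D := D) hb he hJ
        (fun θ hθ v => hγ.hodge 2 1 θ hθ x hx v) u v
      have h2 := (Pool.Agent.Lib.MP_021685_agQ.bil_mult e D.Gc _ (c x)).1 h1
      have h3 : (D.J.map σ)ᵀ * D.Gc + D.Gc * D.J.map σ = 0 := by
        have h4 := S1A_symp D (kk_mem D.J σ)
        have h5 : D.Gc = cq D.G := rfl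
        rw [h5, h4, neg_add_cancel]
      rw [hmat, Matrix.transpose_add, Matrix.transpose_smul, Matrix.transpose_smul,
        Matrix.transpose_one, Matrix.add_mul, Matrix.mul_add, Matrix.smul_mul, Matrix.mul_smul,
        Matrix.smul_mul, Matrix.mul_smul, Matrix.one_mul, Matrix.mul_one] at h2
      have h6 : (-(σ Complex.I / 2)) • ((D.J.map σ)ᵀ * D.Gc) + (1 / 2 : ℂ) • D.Gc +
          ((-(σ Complex.I / 2)) • (D.Gc * D.J.map σ) + (1 / 2 : ℂ) • D.Gc) =
          (-(σ Complex.I / 2)) • ((D.J.map σ)ᵀ * D.Gc + D.Gc * D.J.map σ) + (1 : ℂ) • D.Gc := by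
        module
      rw [h6, h3, smul_zero, zero_add] at h2
      have h7 : ((1 : ℂ) - c x) • D.Gc = 0 := by rw [sub_smul, h2, sub_self]
      rcases smul_eq_zero.1 h7 with h8 | h8
      · exact (sub_eq_zero.1 h8).symm
      · exfalso
        have h9 : (D.Gc * D.Gc⁻¹ : Matrix (Fin (2 * g)) (Fin (2 * g)) ℂ) = 1 :=
          Matrix.mul_nonsing_inv _ isUnit_Gc
        rw [h8, Matrix.zero_mul] at h9
        have h10 := congrFun (congrFun h9 ⟨0, by omega⟩) ⟨0, by omega⟩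
        rw [Matrix.one_apply_eq, Matrix.zero_apply] at h10
        exact zero_ne_one h10
    have h1 : ∀ v : Fin (2 * i) → Fin n → ℂ ⊗[ℤ] M,
        ∑ s, θ (update v s (fun a => (Matrix.toLin e e ((-(σ Complex.I / 2)) • D.J.map σ)) (v s a))) =
          0 * θ v := by
      intro v
      have h2 := hθ x hx v
      rw [der_split θ hmat, hc] at h2
      linear_combination h2
    have h2 := ((coordL_hasC (e := e) θ).der_iff
      (Matrix.toLin e e ((-(σ Complex.I / 2)) • D.J.map σ)) 0).1 h1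
    rw [LinearMap.toMatrix_toLin, zero_smul] at h2
    have h3 : DX ((-(σ Complex.I / 2)) • D.J.map σ) (coordL e n i θ) j = 0 := by
      rw [DX_eq_DM, h2]
      rfl
    have h4 : DX ((-(σ Complex.I / 2)) • D.J.map σ) (coordL e n i θ) j =
        (-(σ Complex.I / 2)) * DX (D.J.map σ) (coordL e n i θ) j := by
      simp only [DX, Matrix.smul_apply, smul_eq_mul, Finset.mul_sum]
      refine Finset.sum_congr rfl fun s _ => Finset.sum_congr rfl fun l _ => ?_
      ring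
    rw [h4] at h3
    have h5 : -(σ Complex.I / 2) ≠ 0 := by
      rw [neg_ne_zero]
      refine div_ne_zero ?_ two_ne_zero
      rw [Ne, map_eq_zero]
      exact Complex.I_ne_zero
    exact (mul_eq_zero.1 h3).resolve_left h5

end

end MP_021685_agX
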