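import Pool.Agent.Lib.MP_802513_agSD.S1A

/-!
# Complements for spaces stable under a selfadjoint set of matrices
-/

set_option autoImplicit false
set_option linter.unusedSectionVars false

noncomputable section

open Matrix Module ComplexOrder MP_802513_agSD

namespace MP_021685_agX

variable {n : ℕ}

/-- The adjoint for the hermitian form `h`. -/
def sta (h x : Mt n) : Mt n := h⁻¹ * xᴴ * h

variable {h : Mt n}

theorem sta_add (x y : Mt n) : sta h (x + y) = sta h x + sta h y := by
  unfold sta
  rw [conjTranspose_add, mul_add, add_mul]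

theorem sta_smul (c : ℂ) (x : Mt n) : sta h (c • x) = star c • sta h x := by
  unfold sta
  rw [conjTranspose_smul, mul_smul_comm, smul_mul_assoc]

theorem sta_sub (x y : Mt n) : sta h (x - y) = sta h x - sta h y := by
  unfold sta
  rw [conjTranspose_sub, mul_sub, sub_mul]

theorem sta_mul (hh : h.PosDef) (x y : Mt n) : sta h (x * y) = sta h y * sta h x := by
  have hu : h * h⁻¹ = 1 := Matrix.mul_nonsing_inv _ ((Matrix.isUnit_iff_isUnit_det _).1 hh.isUnit)
  unfold sta
  rw [conjTranspose_mul]
  calc h⁻¹ * (yᴴ * xᴴ) * h = h⁻¹ * yᴴ * 1 * xᴴ * h := by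
        rw [Matrix.mul_one, Matrix.mul_assoc h⁻¹ yᴴ xᴴ]
    _ = h⁻¹ * yᴴ * (h * h⁻¹) * xᴴ * h := by rw [hu]
    _ = h⁻¹ * yᴴ * h * (h⁻¹ * xᴴ * h) := by simp only [Matrix.mul_assoc]

theorem sta_sta (hh : h.PosDef) (x : Mt n) : sta h (sta h x) = x := by
  have hu : h⁻¹ * h = 1 := Matrix.nonsing_inv_mul _ ((Matrix.isUnit_iff_isUnit_det _).1 hh.isUnit)
  have h1 : hᴴ = h := hh.isHermitian
  have h2 : (h⁻¹)ᴴ = h⁻¹ := hh.isHermitian.inv
  unfold sta
  rw [conjTranspose_mul, conjTranspose_mul, conjTranspose_conjTranspose, h1, h2]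
  calc h⁻¹ * (h * (x * h⁻¹)) * h = (h⁻¹ * h) * x * (h⁻¹ * h) := by simp only [Matrix.mul_assoc]
    _ = x := by rw [hu, Matrix.one_mul, Matrix.mul_one]

theorem trace_sta (hh : h.PosDef) (x : Mt n) : (sta h x).trace = star x.trace := by
  have hu : h * h⁻¹ = 1 := Matrix.mul_nonsing_inv _ ((Matrix.isUnit_iff_isUnit_det _).1 hh.isUnit)
  unfold sta
  rw [Matrix.trace_mul_comm, ← Matrix.mul_assoc, hu, Matrix.one_mul, Matrix.trace_conjTranspose]

/-- The real form. -/
def bR (h : Mt n) : LinearMap.BilinForm ℝ (Mt n) :=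
  LinearMap.mk₂ ℝ (fun x y => ((sta h x * y).trace).re)
    (fun x y z => by rw [sta_add, add_mul, trace_add, Complex.add_re])
    (fun c x y => by
      have h1 : (c • x : Mt n) = (c : ℂ) • x := rfl
      rw [h1, sta_smul, smul_mul_assoc, trace_smul]
      simp)
    (fun x y z => by rw [mul_add, trace_add, Complex.add_re])
    (fun c x y => by
      have h1 : (c • y : Mt n) = (c : ℂ) • y := rfl
      rw [h1, mul_smul_comm, trace_smul]
      simp)

theorem bR_apply (x y : Mt n) : bR h x y = ((sta h x * y).trace).re := rfl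

theorem bR_comm (hh : h.PosDef) (x y : Mt n) : bR h x y = bR h y x := by
  rw [bR_apply, bR_apply]
  have h1 : sta h x * y = sta h (sta h y * x) := by
    rw [sta_mul hh, sta_sta hh]
  rw [h1, trace_sta hh]
  rfl

/-- **Complements.** -/
theorem exists_compl (hh : h.PosDef) (S : Set (Mt n)) (hS : ∀ x ∈ S, sta h x ∈ S)
    (W : Submodule ℂ (Mt n)) (hW : ∀ x ∈ S, ∀ a ∈ W, x * a - a * x ∈ W) :
    ∃ W' : Submodule ℂ (Mt n), (∀ x ∈ S, ∀ a ∈ W', x * a - a * x ∈ W') ∧ IsCompl W W' := by
  let W' : Submodule ℂ (Mt n) :=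
    { carrier := {y | ∀ a ∈ W, (sta h a * y).trace = 0}
      add_mem' := by
        intro y z hy hz a ha
        rw [mul_add, trace_add, hy a ha, hz a ha, add_zero]
      zero_mem' := by
        intro a _
        rw [mul_zero, trace_zero]
      smul_mem' := by
        intro c y hy a ha
        rw [mul_smul_comm, trace_smul, hy a ha, smul_zero] }
  refine ⟨W', ?_, ?_⟩
  · intro x hx y hy a ha
    have h1 := hy _ (hW _ (hS x hx) a ha)
    rw [sta_sub, sta_mul hh, sta_mul hh, sta_sta hh, sub_mul, trace_sub] at h1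
    rw [mul_sub, trace_sub]
    have h2 : (sta h a * (x * y)).trace = (sta h a * x * y).trace := by rw [Matrix.mul_assoc]
    have h3 : (sta h a * (y * x)).trace = (x * sta h a * y).trace := by
      rw [← Matrix.mul_assoc, Matrix.trace_mul_comm, ← Matrix.mul_assoc]
    rw [h2, h3]
    exact h1
  · let WR : Submodule ℝ (Mt n) := W.restrictScalars ℝ
    have hr : (bR h).IsRefl := fun x y h1 => by rw [bR_comm hh]; exact h1
    have hd : Disjoint WR ((bR h).orthogonal WR) := by
      rw [Submodule.disjoint_def]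
      intro x hx hx'
      have key : ∀ y : Mt n, y ∈ (bR h).orthogonal WR → ∀ a ∈ W, (sta h a * y).trace = 0 := by
        intro y hy a ha
        have h1 : ((sta h a * y).trace).re = 0 := hy a ha
        have h2 : ((sta h (Complex.I • a) * y).trace).re = 0 := hy _ (W.smul_mem _ ha)
        rw [sta_smul, smul_mul_assoc, trace_smul] at h2
        refine Complex.ext h1 ?_
        simpa using h2
      exact S1P_zero hh (key x hx' x hx)
    have hc := (LinearMap.BilinForm.isCompl_orthogonal_iff_disjoint hr).2 hd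
    constructor
    · rw [Submodule.disjoint_def]
      intro x hx hx'
      exact S1P_zero hh (hx' x hx)
    · rw [Submodule.codisjoint_iff_exists_add_eq]
      intro v
      have h1 : v ∈ WR ⊔ (bR h).orthogonal WR := by
        rw [codisjoint_iff.1 hc.2]
        exact Submodule.mem_top
      obtain ⟨x, hx, y, hy, hxy⟩ := Submodule.mem_sup.1 h1
      refine ⟨x, y, hx, fun a ha => ?_, hxy⟩
      have h2 : ((sta h a * y).trace).re = 0 := hy a ha
      have h3 : ((sta h (Complex.I • a) * y).trace).re = 0 := hy _ (W.smul_mem _ ha)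
      rw [sta_smul, smul_mul_assoc, trace_smul] at h3
      refine Complex.ext h2 ?_
      simpa using h3

end MP_021685_agX
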