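import Pool.Agent.Lib.MP_021685_agV.Dv

/-!
# Pull-backs of complex forms: definitions
-/

set_option autoImplicit false

noncomputable section

open Module Pool.Agent.Lib.MP_802513_ag Pool.Agent.Lib.MP_802513_agS Pool.Agent.Lib.MP_021685_agV
open scoped TensorProduct

namespace MP_021685_agX

variable {V W : Type*} [AddCommGroup V] [Module ℂ V] [AddCommGroup W] [Module ℂ W]
  {L : AddSubgroup V} {M : AddSubgroup W}

/-- The map of the lattices of a homomorphism `f : V / L → W / M`. -/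
def latHom (f : V →ₗ[ℂ] W) (hf : ∀ v ∈ L, f v ∈ M) : L →ₗ[ℤ] M :=
  AddMonoidHom.toIntLinearMap
    { toFun := fun x => ⟨f x, hf x x.2⟩
      map_zero' := Subtype.ext (map_zero f)
      map_add' := fun x y => Subtype.ext (map_add f (x : V) (y : V)) }

/-- The map `ℂ ⊗ L → ℂ ⊗ M` of a homomorphism `f : V / L → W / M`. -/
def homH (f : V →ₗ[ℂ] W) (hf : ∀ v ∈ L, f v ∈ M) : (ℂ ⊗[ℤ] L) →ₗ[ℂ] (ℂ ⊗[ℤ] M) :=
  (latHom f hf).baseChange ℂ

/-- The pull-back of a form on `(ℂ ⊗ M) ^ n` under the power of a linear map `F : ℂ ⊗ L → ℂ ⊗ M`. -/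
def pullH (F : (ℂ ⊗[ℤ] L) →ₗ[ℂ] (ℂ ⊗[ℤ] M)) {n i : ℕ} (θ : CForm M n i) : CForm L n i :=
  θ.compLinearMap (LinearMap.pi fun a => F ∘ₗ LinearMap.proj a)

/-- The pull-back to `(A × B) ^ n` of a form on `A ^ n`, under the projection, `A = V / L`,
`B = W / M`. -/
def pullFst (M : AddSubgroup W) {n i : ℕ} (θ : CForm L n i) : CForm (L.prod M) n i :=
  pullH (homH (L := L.prod M) (LinearMap.fst ℂ V W) fun v (hv : v ∈ L.prod M) => hv.1) θ

end MP_021685_agX
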